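import Pool.Agent.Helper71.SZ.InsSub
import Pool.Agent.Helper82.SZ.PartStep

/-! SZ-8: partition into subspaces, induction over the steps. -/

set_option autoImplicit false

namespace Pool.Agent.Helper52.SZ

open Combinatorics

private theorem pf_ind_le {X : Type} {E : Set X} {f : X → ℝ} (hf : ∀ w, f w ≤ 1) (w : X) :
    E.indicator f w ≤ E.indicator (fun _ => (1 : ℝ)) w := by
  by_cases hw : w ∈ E
  · rw [Set.indicator_of_mem hw, Set.indicator_of_mem hw]
    exact hf w
  · rw [Set.indicator_of_notMem hw, Set.indicator_of_notMem hw]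

private theorem pf_le_dn {ι α X : Type} [Finite ι] [Finite α] [Finite X]
    {E : X → Set (ι → Option α)} {f : X → (ι → Option α) → ℝ} (hf : ∀ x w, f x w ≤ 1) :
    av (fun x => av ((E x).indicator (f x))) ≤ av (fun x => dn (E x)) :=
  av_mono fun x => av_mono fun w => pf_ind_le (hf x) w

theorem part_fam {α : Type} [Finite α] [Nonempty α] (h : MDHJ α) (i : α) (d : ℕ) (β : ℝ)
    (hβ : 0 < β) :
    ∃ c0 : ℝ, 0 < c0 ∧ ∀ r : ℕ, ∃ n0 : ℕ, ∀ (ι : Type) [Finite ι], n0 ≤ Nat.card ι →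
      ∀ (X : Type) [Finite X] [Nonempty X] (E : X → Set (ι → Option α))
        (f : X → (ι → Option α) → ℝ),
        (∀ x, Ins i (E x)) → (∀ x w, f x w ≤ 1) → (∀ x, Ok d (f x)) →
        av (fun x => av ((E x).indicator (f x))) ≤ max β (av (fun x => dn (E x)) - r * c0) := by
  obtain ⟨L, hL⟩ := ins_sub h i d (β / 2) (by positivity)
  have hL' : ∀ E : Set (Fin L → Option α), Ins i E → β / 2 ≤ dn E →
      ∃ V : Subspace (Fin d) (Option α) (Fin L), ∀ x, V x ∈ E :=
    hL (Fin L) (by rw [Nat.card_eq_fintype_card, Fintype.card_fin])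
  have hc0 : 0 < β / 2 / ((Nat.card α : ℝ) + 1) ^ L := by positivity
  refine ⟨β / 2 / ((Nat.card α : ℝ) + 1) ^ L, hc0, fun r => ?_⟩
  induction r with
  | zero =>
    refine ⟨0, fun ι _ _ X _ _ E f _ hf _ => ?_⟩
    refine le_max_of_le_right ?_
    rw [Nat.cast_zero, zero_mul, sub_zero]
    exact pf_le_dn hf
  | succ r ih =>
    obtain ⟨n0, hn0⟩ := ih
    refine ⟨L + n0, fun ι _ hι X _ _ E f hE hf hO => ?_⟩
    by_cases hle : av (fun x => dn (E x)) ≤ β
    · exact le_max_of_le_left ((pf_le_dn hf).trans hle)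
    · obtain ⟨κ', hκ', ⟨e⟩, hcard⟩ := exists_split (ι := ι) (n := L) (by omega)
      obtain ⟨E', f', h1, h2, h3, h4, h5⟩ := part_step i d β hβ L hL' e E f hE hf hO
        (not_le.mp hle).le
      have h6 := hn0 κ' (by omega) (X × (Fin L → Option α)) E' f' h1 h2 h3
      refine h4.trans (h6.trans (max_le_max le_rfl ?_))
      push_cast
      linarith

theorem part_one {α : Type} [Finite α] [Nonempty α] (h : MDHJ α) (i : α) (d : ℕ) (β : ℝ)
    (hβ : 0 < β) :
    ∃ n0 : ℕ, ∀ (ι : Type) [Finite ι], n0 ≤ Nat.card ι →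
      ∀ (E : Set (ι → Option α)) (f : (ι → Option α) → ℝ),
        Ins i E → (∀ w, f w ≤ 1) → Ok d f → av (E.indicator f) ≤ β := by
  obtain ⟨c0, hc0, hr⟩ := part_fam h i d β hβ
  obtain ⟨r, hr1⟩ := exists_nat_ge (1 / c0)
  have hrc : 1 ≤ r * c0 := by
    rwa [div_le_iff₀ hc0] at hr1
  obtain ⟨n0, hn0⟩ := hr r
  refine ⟨n0, fun ι _ hι E f hE hf hO => ?_⟩
  have h1 := hn0 ι hι Unit (fun _ => E) (fun _ => f) (fun _ => hE) (fun _ => hf) (fun _ => hO)
  rw [av_const, av_const] at h1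
  refine h1.trans (max_le le_rfl ?_)
  have := dn_le_one E
  linarith

end Pool.Agent.Helper52.SZ
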